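import Pool.Agent.N889.GU.Uniq

set_option autoImplicit false

/-!
# MP_94a3a7_co, Q2: spheres in `S(i, d-1)` with the `g`-numbers of `K(i, d-1)`

Q2 has a positive answer, for every pair `(i, d)` and without assuming the inequality of Q1: a
`ℤ/2`-homology sphere in `S(i, d-1)` with the `g`-numbers of
`K(i, d-1) = (∂σ^i)^{*q} * ∂σ^r` (`d = q i + r`, `1 ≤ r ≤ i`) is isomorphic to `K(i, d-1)`.
Only the numbers `g_j` with `j ≤ i + 1` and `j ≤ d / 2` are needed.

Idea of the proof.  The `g`-numbers (with the Dehn-Sommerville relations, if `i + 1 > d / 2`) give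
`f_0, …, f_i`.  Counting the non-faces with at most `i + 1` vertices, one finds that the sphere has
exactly as many missing faces with `s` vertices as `K(i, d-1)`, for every `s ≤ i + 1`, and there
are no larger ones.  So there are `q + 1 = f_0 - d` missing faces; as no face has more than `d`
vertices, they are pairwise disjoint and cover the vertex set.
-/

open Finset

namespace Pool.Agent.Results.MP_94a3a7_co.Uniqueness

open Pool.Agent.R140.Sph Pool.Agent.N889.GU

/-! ### The complexes `K(i, d-1)` -/

/-- The `j`-th block: the `q` blocks `j < q` have `i + 1` elements, the block `j = q` has `r + 1`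
elements, and the blocks follow each other in `ℕ`. -/
def block (i q r j : ℕ) : Finset ℕ :=
  if j < q then Ico (j * (i + 1)) (j * (i + 1) + (i + 1)) else Ico (j * (i + 1)) (j * (i + 1) + (r + 1))

/-- The blocks `j = 0, …, q`. -/
def blocks (i q r : ℕ) : Finset (Finset ℕ) := (range (q + 1)).image (block i q r)

lemma block_card (i q r j : ℕ) : (block i q r j).card = if j < q then i + 1 else r + 1 := by
  unfold block
  split_ifs <;> simp

lemma empty_notMem (i q r : ℕ) : ∅ ∉ blocks i q r := by
  intro h
  obtain ⟨j, _, hj⟩ := Finset.mem_image.1 h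
  have h1 := block_card i q r j
  rw [hj, Finset.card_empty] at h1
  split_ifs at h1 <;> omega

/-- The complex `K(i, d-1)` for `d = q i + r`, `1 ≤ r ≤ i`: the join of `q` copies of the boundary
complex of the `i`-simplex and the boundary complex of the `r`-simplex.  Its vertices are
`0, …, q (i + 1) + r`, and its faces are the sets of vertices which contain no block. -/
def K (i q r : ℕ) : Cplx := joinBdry (blocks i q r) (empty_notMem i q r)

lemma block_disj {i q r j j' : ℕ} (hri : r ≤ i) (h : j < j') :
    Disjoint (block i q r j) (block i q r j') := by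
  rw [Finset.disjoint_left]
  intro x hx hx'
  have h1 : x < j * (i + 1) + (i + 1) := by
    unfold block at hx
    split_ifs at hx <;> rw [Finset.mem_Ico] at hx <;> omega
  have h2 : j' * (i + 1) ≤ x := by
    unfold block at hx'
    split_ifs at hx' <;> rw [Finset.mem_Ico] at hx' <;> omega
  have h3 : (j + 1) * (i + 1) ≤ j' * (i + 1) := Nat.mul_le_mul_right _ h
  have h4 : (j + 1) * (i + 1) = j * (i + 1) + (i + 1) := by ring
  omega

lemma block_nonempty (i q r j : ℕ) : (block i q r j).Nonempty := by
  rw [← Finset.card_pos, block_card]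
  split_ifs <;> omega

lemma block_inj {i q r : ℕ} (hri : r ≤ i) : Function.Injective (block i q r) := by
  intro j j' h
  by_contra hne
  rcases Nat.lt_or_gt_of_ne hne with hlt | hlt
  · have h1 := block_disj (q := q) hri hlt
    rw [h, disjoint_self] at h1
    exact (block_nonempty i q r j').ne_empty h1
  · have h1 := block_disj (q := q) hri hlt
    rw [h, disjoint_self] at h1
    exact (block_nonempty i q r j').ne_empty h1

lemma blocks_disj {i q r : ℕ} (hri : r ≤ i) :
    (blocks i q r : Set (Finset ℕ)).PairwiseDisjoint id := by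
  intro B hB B' hB' hne
  obtain ⟨j, _, rfl⟩ := Finset.mem_image.1 (Finset.mem_coe.1 hB)
  obtain ⟨j', _, rfl⟩ := Finset.mem_image.1 (Finset.mem_coe.1 hB')
  have hjj : j ≠ j' := fun h => hne (by rw [h])
  rcases Nat.lt_or_gt_of_ne hjj with hlt | hlt
  · exact block_disj hri hlt
  · exact (block_disj hri hlt).symm

lemma blocks_card {i q r : ℕ} (hri : r ≤ i) : (blocks i q r).card = q + 1 := by
  unfold blocks
  rw [Finset.card_image_of_injective _ (block_inj hri), Finset.card_range]

lemma blocks_sum {i q r : ℕ} (hri : r ≤ i) :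
    ∑ B ∈ blocks i q r, B.card = (q * i + r) + (blocks i q r).card := by
  rw [blocks_card hri]
  unfold blocks
  rw [Finset.sum_image (fun x _ y _ h => block_inj hri h), Finset.sum_range_succ]
  have h1 : ∑ j ∈ range q, (block i q r j).card = q * (i + 1) := by
    rw [Finset.sum_congr rfl (g := fun _ => i + 1)
      (fun j hj => by rw [block_card, if_pos (Finset.mem_range.1 hj)])]
    rw [Finset.sum_const, Finset.card_range, smul_eq_mul]
  rw [h1, block_card, if_neg (lt_irrefl q)]
  ring

lemma blocks_two {i q r : ℕ} (hr : 1 ≤ r) (hri : r ≤ i) : ∀ B ∈ blocks i q r, 2 ≤ B.card := by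
  intro B hB
  obtain ⟨j, _, rfl⟩ := Finset.mem_image.1 hB
  rw [block_card]
  split_ifs <;> omega

lemma blocks_le {i q r : ℕ} (hri : r ≤ i) : ∀ B ∈ blocks i q r, B.card ≤ i + 1 := by
  intro B hB
  obtain ⟨j, _, rfl⟩ := Finset.mem_image.1 hB
  rw [block_card]
  split_ifs <;> omega

lemma blocks_one {i q r : ℕ} : ∀ B ∈ blocks i q r, ∀ B' ∈ blocks i q r,
    B.card ≤ i → B'.card ≤ i → B = B' := by
  have key : ∀ j ∈ range (q + 1), (block i q r j).card ≤ i → j = q := by
    intro j hj h
    rw [Finset.mem_range] at hj
    rw [block_card] at h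
    split_ifs at h with h1
    · omega
    · omega
  intro B hB B' hB' h h'
  obtain ⟨j, hj, rfl⟩ := Finset.mem_image.1 hB
  obtain ⟨j', hj', rfl⟩ := Finset.mem_image.1 hB'
  rw [key j hj h, key j' hj' h']

/-- **Positive answer to Q2.**  Let `i, q, r` be natural numbers with `1 ≤ r ≤ i` and
`d = q i + r`.  The complex `K(i, d-1)` is in `S(i, d-1)`.  If `X` is any `ℤ/2`-homology sphere in
`S(i, d-1)` whose `g`-numbers `g_j` agree with those of `K(i, d-1)` for all `j ≤ d / 2` with
`j ≤ i + 1` (in particular if they agree for all `j ≤ d / 2`), then `X` is isomorphic to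
`K(i, d-1)`; conversely isomorphic complexes have the same `g`-numbers. -/
theorem result (i d q r : ℕ) (hr : 1 ≤ r) (hri : r ≤ i) (hd : d = q * i + r) :
    InS i d (K i q r) ∧
    ∀ X : Cplx, InS i d X →
      ((∀ j ≤ d / 2, j ≤ i + 1 → gNum d X.faces j = gNum d (K i q r).faces j) →
        Iso X (K i q r)) ∧
      (Iso X (K i q r) → ∀ j, gNum d X.faces j = gNum d (K i q r).faces j) := by
  classical
  have hsum := blocks_sum (q := q) hri
  rw [← hd] at hsum
  refine ⟨inS_jb _ _ (blocks_disj hri) d i hsum (blocks_le hri), fun X hX => ⟨fun hg => ?_,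
    fun hiso j => ?_⟩⟩
  · have hXd : ∀ F ∈ X.faces, F.card ≤ d := hX.1.1.1
    have h0 : numFaces X.faces 0 = numFaces (K i q r).faces 0 :=
      (numFaces_zero X).trans (numFaces_zero _).symm
    have hf : ∀ s ≤ i + 1, numFaces X.faces s = numFaces (K i q r).faces s := by
      rcases Nat.lt_or_ge (d / 2) (i + 1) with hlt | hle
      · intro s _
        refine all_faces_eq hXd (fun F hF => card_jb _ (blocks_disj hri) d hsum hF)
          (dehnSommerville (eulerian_of_sphere hX.1)) (ds_jb _ (blocks_disj hri) d hsum)
          (fun j hj => hg j hj (by omega)) s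
      · exact faces_eq_of_g_le (i + 1) h0 (fun j hj => hg j (by omega) hj)
    exact unique_of_faces _ _ (blocks_disj hri) (blocks_two hr hri) d i hsum (blocks_le hri)
      blocks_one hXd hX.2 hf
  · have hn := numFaces_of_iso hiso
    have hh : ∀ j, hNum d X.faces j = hNum d (K i q r).faces j := by
      intro j
      unfold hNum
      exact Finset.sum_congr rfl fun s _ => by rw [hn s]
    unfold gNum
    rw [hh j, hh (j - 1)]

end Pool.Agent.Results.MP_94a3a7_co.Uniqueness
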